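import Pool.Agent.N587.SE.Exact

set_option autoImplicit false

/-!
# Small-set expansion and the mixed hierarchy: exponent `η / log (1 / η)`

The definitions used in the statement are `cut`, `Regular`, `Sol` in `Pool/Agent/N587/SE/Graph.lean`,
`Lev` in `Pool/Agent/N587/SE/Cond.lean` and `Mixed`, `Dep` in `Pool/Agent/TH522/UG/Mixed.lean`.

`Sol G d s η k L` says that `L` is a solution of level `k` of the mixed hierarchy (Sherali-Adams
together with the basic semidefinite program) for the question whether some set of exactly `s`
vertices of `G` has expansion at most `η`.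

The theorem: for all `η` and `δ` this relaxation decides `SSE(η, δ)`, as posed, already at the level
`(C / δ) n ^ (C η / log (1 / η))`.

The known subexponential algorithms (Arora, Barak, Steurer) and the hierarchies which match them
(Barak, Raghavendra, Steurer; Guruswami, Sinop) need the exponent `C η`.

Idea of the proof. Suppose that every set `S` of exactly `s` vertices contains at most `η d s / 2`
edges. There may be smaller sets without any expansion. Let `W` be the largest set of at most `s`
vertices with average internal degree at least `32 η d`; then `|W| ≤ s / 32`, all small sets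
outside `W` have internal degree less than `32 η d`, and each vertex outside `W` has at most
`16 η d` neighbours in `W`. So killing the random walk in `W` costs only a fraction `16 η` of the
energy, while its heat kernel decays like `(256 η) ^ t`: after `log n / log (1 / (256 η))` steps it
is spread out, but the covariances of the solution, whose energy is a fraction `O(η)` of the
variance, have lost only a factor `n ^ (-O(η / log (1 / η)))`. So there are large global
correlations, and by conditioning on a few vertices the solution becomes almost integral
outside `W`.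
-/

namespace Pool.Agent.Results.MP_8d8c46_lc.ExactSizeHierarchy

open Pool.Agent.N587.SE

/-- Let `G` be a `d`-regular graph with `n` vertices, `0 < η < 1 / 2`, let `s = δ n` be a positive
integer, `δ ≤ 1`, and let `k ≥ (2 ^ 12 / δ) n ^ (2 ^ 13 η / log (1 / η))`. If some set of exactly `s`
vertices has expansion at most `η`, then the relaxation has a solution of level `k`. If all sets of
exactly `s` vertices have expansion at least `1 - η`, then it has none. -/
theorem result (V : Type) [Fintype V] (G : SimpleGraph V) (d s k : ℕ) (η δ : ℝ)
    (hG : Regular G d) (hd : 1 ≤ d) (hs : 1 ≤ s) (hδ : (s : ℝ) = δ * Fintype.card V) (hδ1 : δ ≤ 1)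
    (hη : 0 < η) (hη1 : η < 1 / 2)
    (hk : 2 ^ 12 / δ * (Fintype.card V : ℝ) ^ (2 ^ 13 * η / Real.log (1 / η)) ≤ k) :
    ((∃ S : Finset V, S.card = s ∧ (cut G S : ℝ) ≤ η * (d * s)) →
      ∃ L : ((V → Bool) → ℝ) →ₗ[ℝ] ℝ, Sol G d s η k L) ∧
    ((∀ S : Finset V, S.card = s → (1 - η) * (d * s) ≤ cut G S) →
      ¬ ∃ L : ((V → Bool) → ℝ) →ₗ[ℝ] ℝ, Sol G d s η k L) := by
  have hs0 : (0 : ℝ) < s := by exact_mod_cast hs
  have hn0 : (0 : ℝ) ≤ Fintype.card V := Nat.cast_nonneg _
  have hδ0 : 0 < δ := by
    by_contra h
    have := mul_nonpos_of_nonpos_of_nonneg (not_lt.1 h) hn0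
    linarith
  have hn : (0 : ℝ) < Fintype.card V := by
    by_contra h
    have := mul_nonpos_of_nonneg_of_nonpos hδ0.le (not_lt.1 h)
    linarith
  have hsn : s ≤ Fintype.card V := by
    have : (s : ℝ) ≤ Fintype.card V := by
      rw [hδ]
      exact mul_le_of_le_one_left hn0 hδ1
    exact_mod_cast this
  constructor
  · rintro ⟨S, hS, hcut⟩
    exact sol_of_set G d s η k S hS hcut
  · rintro hno ⟨L, hL⟩
    obtain ⟨S, hS, hlt⟩ := exact_all G d s k η hG hd hs hsn hη hη1 (by
      have h1 : 1 / δ = (Fintype.card V : ℝ) / s := by
        rw [hδ]
        field_simp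
      rw [div_eq_mul_one_div, h1] at hk
      linarith) L hL
    linarith [hno S hS]

end Pool.Agent.Results.MP_8d8c46_lc.ExactSizeHierarchy
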