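import Pool.Agent.N587.SE.Trade

set_option autoImplicit false

/-!
# Small-set expansion and the mixed hierarchy: the trade-off for all gaps

The definitions used in the statement are `cut`, `Regular`, `Sol` in `Pool/Agent/N587/SE/Graph.lean`,
`Lev` in `Pool/Agent/N587/SE/Cond.lean` and `Mixed`, `Dep` in `Pool/Agent/TH522/UG/Mixed.lean`.

`Sol G d s ε k L` says that `L` is a solution of level `k` of the mixed hierarchy (Sherali-Adams
together with the basic semidefinite program) for the question whether some set of exactly `s`
vertices of `G` has expansion at most `ε`.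

If all nonempty sets of at most `(1 + ξ) s` vertices have expansion at least `φ ≥ 32 ε`, then there is
no solution of the level `C (n / s) n ^ (C ε / log (1 / (1 - φ ^ 2)))`, where `C` depends on `ξ` only.

For small `φ` the exponent is `ε / φ ^ 2`, up to a constant. The subexponential algorithm of Arora,
Barak and Steurer, and the hierarchies which match it, have the exponent `ε / φ ^ 3`: the energy of
the solution has to be compared there with a fraction `φ` of the variance. For almost perfect
expansion `φ = 1 - θ` the exponent is `ε / log (1 / θ)`.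

Idea of the proof: as in `ExactSizeHierarchy`, with the lazy walk on the whole graph (and the walk
itself if `φ > 15 / 16`), whose heat kernel decays because of a local Cheeger inequality, with the
spectral radius `(1 - φ ^ 2) ^ (1 / 2)` on small sets. It is enough to condition until the variance is
a small constant fraction of `s`, instead of a fraction `φ`: then for the function
`h = min (max (p - 1 / 2) 0) (1 / 4)` of the probabilities `p` of the vertices the total variation is
at most the expected cut, `h` has a support of at most `(1 + ξ) s` vertices and its sum is at least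
`s / 8`.
-/

namespace Pool.Agent.Results.MP_8d8c46_lc.HierarchyTradeoff

open Pool.Agent.N587.SE

/-- Let `G` be a `d`-regular graph with `n` vertices, `s ≥ 1`, `0 < ξ ≤ 1`, `0 < φ < 1`, `0 < ε`,
`32 ε ≤ ξ` and `32 ε ≤ φ`. If all nonempty sets of at most `(1 + ξ) s` vertices have expansion at
least `φ`, then the relaxation of level `k` for the question whether some set of exactly `s` vertices
has expansion at most `ε` has no solution, if
`k ≥ (2 ^ 14 / ξ) (n / s) n ^ (2 ^ 12 ε / (ξ log (1 / (1 - φ ^ 2))))`. -/
theorem result (V : Type) [Fintype V] (G : SimpleGraph V) (d s k : ℕ) (ε φ ξ : ℝ)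
    (hG : Regular G d) (hd : 1 ≤ d) (hs : 1 ≤ s) (hε : 0 < ε) (hφ : 0 < φ) (hφ1 : φ < 1)
    (hξ : 0 < ξ) (hξ1 : ξ ≤ 1) (hεξ : 32 * ε ≤ ξ) (hεφ : 32 * ε ≤ φ)
    (hexp : ∀ S : Finset V, S.Nonempty → (S.card : ℝ) ≤ (1 + ξ) * s →
      φ * (d * S.card) ≤ cut G S)
    (hk : 2 ^ 14 / ξ * ((Fintype.card V : ℝ) / s *
      (Fintype.card V : ℝ) ^ (2 ^ 12 * ε / (ξ * Real.log (1 / (1 - φ ^ 2))))) ≤ k) :
    ¬ ∃ L : ((V → Bool) → ℝ) →ₗ[ℝ] ℝ, Sol G d s ε k L := by
  rintro ⟨L, hL⟩
  exact trade G d s k ε φ ξ hG hd hs hε hφ hφ1 hξ hξ1 hεξ hεφ hexp hk L hL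

end Pool.Agent.Results.MP_8d8c46_lc.HierarchyTradeoff
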