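import Pool.Agent.N587.SE.Local
import Pool.Agent.TH843.LR.Form

set_option autoImplicit false

/-!
# Local reductions from gap 3-SAT to small-set expansion must be large

The definitions used in the statement are `Encodes` in `Pool/Agent/N587/SE/Local.lean`, `cut` and
`Regular` in `Pool/Agent/N587/SE/Graph.lean`, `Reads` and `SatOn` in `Pool/Agent/TH700/UG/Defs.lean`
and `Clause`, `Satisfies`, `falsified` in `Pool/Agent/W888/GX/Mix.lean`.

A local reduction from gap 3-SAT to `SSE(η, δ)` comes with an honest set of vertices for every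
assignment of the variables, membership of a vertex in the honest set depends on few of the
variables, and that the honest set of a satisfying assignment has the right size and expansion is
seen locally, in gadgets which contain few of the clauses. `Encodes F D G d s η` says this for the
formula `F`, locality `D`, and the graph `G`.

The theorem: for some formulas `F` in `n` variables with `O(n)` clauses, at most a fraction
`7 / 8 + ρ` of which can be satisfied, every graph with `N` vertices which encodes `F` with locality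
`D` as a yes instance of `SSE(η, δ)`, and is a no instance of it, satisfies
`N > (c δ n / D) ^ (log (1 / η) / (2 ^ 13 η))`. There is a similar bound for all other gaps.

So the size of local reductions which prove the hardness of `SSE(η, δ)` is at least
`n ^ (c' log (1 / η) / η)`, for each `δ`, and in reductions of size `n ^ a` membership in the honest
set depends on `n ^ (1 - o(1))` variables if `a` is fixed and `η → 0`. This is unconditional; the
bound for general reductions that follows from subexponential algorithms needs the exponential time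
hypothesis.

Proof: for random formulas there is a pseudo-expectation of linear degree which satisfies all
clauses. Composed with the honest sets it is a solution of the mixed hierarchy for small-set
expansion of level `c n / D`. Now use the theorems of `ExactSizeHierarchy` and `HierarchyTradeoff`.
-/

namespace Pool.Agent.Results.MP_8d8c46_lc.LocalReductions

open Finset Pool.Agent.W888.GX Pool.Agent.TH700.UG Pool.Agent.N587.SE

/-- the numbers -/
theorem level {n N D s : ℕ} {c r X : ℝ} (hX : X = c * (s / N) * n / D) (hc : 0 < c) (hr : 0 < r)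
    (hs : 1 ≤ s) (hsN : s ≤ N) (hD : 1 ≤ D) (h : (N : ℝ) ≤ X ^ (1 / r)) :
    ∃ k : ℕ, 2 ^ 14 * ((N : ℝ) / s * (N : ℝ) ^ r) ≤ k ∧ (((k + 2) * D : ℕ) : ℝ) ≤
      2 ^ 15 * c * n := by
  have hs0 : (0 : ℝ) < s := by exact_mod_cast hs
  have hN0 : (0 : ℝ) < N := by exact_mod_cast hs.trans hsN
  have hN1 : (1 : ℝ) ≤ N := by exact_mod_cast hs.trans hsN
  have hsN' : (s : ℝ) ≤ N := by exact_mod_cast hsN
  have hD0 : (0 : ℝ) < D := by exact_mod_cast hD
  have hX0 : 0 ≤ X := by rw [hX]; positivity
  have hpow : (N : ℝ) ^ r ≤ X := by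
    calc (N : ℝ) ^ r ≤ (X ^ (1 / r)) ^ r := Real.rpow_le_rpow hN0.le h hr.le
      _ = X := by rw [one_div]; exact Real.rpow_inv_rpow hX0 hr.ne'
  have h1 : (N : ℝ) / s * (N : ℝ) ^ r ≤ c * n / D := by
    calc (N : ℝ) / s * (N : ℝ) ^ r ≤ (N : ℝ) / s * X :=
          mul_le_mul_of_nonneg_left hpow (by positivity)
      _ = c * n / D := by rw [hX]; field_simp
  have h2 : 1 ≤ (N : ℝ) / s * (N : ℝ) ^ r := by
    have h3 : 1 ≤ (N : ℝ) / s := by rwa [le_div_iff₀ hs0, one_mul]
    have h4 : 1 ≤ (N : ℝ) ^ r := Real.one_le_rpow hN1 hr.le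
    nlinarith
  have h3 : (D : ℝ) ≤ c * n := by
    have h4 := h2.trans h1
    rwa [le_div_iff₀ hD0, one_mul] at h4
  refine ⟨⌈2 ^ 14 * ((N : ℝ) / s * (N : ℝ) ^ r)⌉₊, Nat.le_ceil _, ?_⟩
  have h4 : ((⌈2 ^ 14 * ((N : ℝ) / s * (N : ℝ) ^ r)⌉₊ : ℕ) : ℝ) ≤
      2 ^ 14 * ((N : ℝ) / s * (N : ℝ) ^ r) + 1 := (Nat.ceil_lt_add_one (by positivity)).le
  push_cast
  calc ((⌈2 ^ 14 * ((N : ℝ) / s * (N : ℝ) ^ r)⌉₊ : ℝ) + 2) * D ≤
        (2 ^ 14 * (c * n / D) + 3) * D := mul_le_mul_of_nonneg_right (by linarith) hD0.le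
    _ = 2 ^ 14 * (c * n) + 3 * D := by field_simp
    _ ≤ 2 ^ 15 * c * n := by
        have : 0 ≤ c * n := by linarith
        norm_num
        linarith

/-- For every `ρ > 0` there are `M` and `c > 0` such that for all large `n` there is a formula `F`
with at least `n` and at most `M n` clauses, with three literals each, over `n` variables, every
assignment of which falsifies at least a fraction `1 / 8 - ρ` of the clauses, and with the following
property. Let `D ≥ 1`, and let `G` be a `d`-regular graph with `N` vertices, `1 ≤ s ≤ N`.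

(1) Let `0 < η < 1 / 2`. If `G` encodes `F` with locality `D` for sets of `s` vertices with expansion
at most `η`, and all sets of exactly `s` vertices have expansion at least `1 - η`, then
`N > (c (s / N) n / D) ^ (log (1 / η) / (2 ^ 13 η))`.

(2) Let `0 < ε` and `32 ε ≤ φ < 1`. If `G` encodes `F` with locality `D` for sets of `s` vertices with
expansion at most `ε`, and all nonempty sets of at most `2 s` vertices have expansion at least `φ`,
then `N > (c (s / N) n / D) ^ (log (1 / (1 - φ ^ 2)) / (2 ^ 12 ε))`. -/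
theorem result : ∀ ρ : ℝ, 0 < ρ →
    ∃ M : ℕ, 1 ≤ M ∧ ∃ c : ℝ, 0 < c ∧ ∃ n₀ : ℕ, ∀ n : ℕ, n₀ ≤ n →
      ∃ (I : Type) (_ : Fintype I) (F : I → Clause 3 n),
        n ≤ Fintype.card I ∧ Fintype.card I ≤ M * n ∧
        (∀ z, (1 / 8 - ρ) * (Fintype.card I : ℝ) ≤ (falsified F z : ℝ)) ∧
        ∀ (D : ℕ) (V : Type) [Fintype V] (G : SimpleGraph V) (d s : ℕ), 1 ≤ D →
          Regular G d → 1 ≤ d → 1 ≤ s → s ≤ Fintype.card V →
          (∀ η : ℝ, 0 < η → η < 1 / 2 → Encodes F D G d s η →
            (∀ S : Finset V, S.card = s → (1 - η) * (d * s) ≤ cut G S) →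
            (c * (s / Fintype.card V) * n / D) ^ (Real.log (1 / η) / (2 ^ 13 * η)) <
              Fintype.card V) ∧
          (∀ ε φ : ℝ, 0 < ε → 32 * ε ≤ φ → φ < 1 → Encodes F D G d s ε →
            (∀ S : Finset V, S.Nonempty → S.card ≤ 2 * s → φ * (d * S.card) ≤ cut G S) →
            (c * (s / Fintype.card V) * n / D) ^ (Real.log (1 / (1 - φ ^ 2)) / (2 ^ 12 * ε)) <
              Fintype.card V) := by
  intro ρ hρ
  obtain ⟨M, hM, c0, hc0, n0, hn0⟩ := Pool.Agent.TH843.LR.exists_formula_card ρ hρ
  obtain ⟨c, hc⟩ : ∃ c : ℝ, c = c0 / 2 ^ 15 := ⟨_, rfl⟩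
  have hcpos : 0 < c := by rw [hc]; positivity
  have hc0c : c0 = 2 ^ 15 * c := by rw [hc]; ring
  refine ⟨M, hM, c, hcpos, n0, fun n hn => ?_⟩
  obtain ⟨I, hI, F, D0, L, hcard0, hcard, hfar, hD0, hL, hF⟩ := hn0 n hn
  refine ⟨I, hI, F, hcard0, hcard, hfar, ?_⟩
  intro D V _ G d s hD hG hd hs hsN
  rw [hc0c] at hD0
  constructor
  · intro η hη hη1 hR hno
    by_contra hcon
    push Not at hcon
    have hlog : 0 < Real.log (1 / η) := Real.log_pos (by rw [lt_div_iff₀ hη]; linarith)
    have e : Real.log (1 / η) / (2 ^ 13 * η) = 1 / (2 ^ 13 * η / Real.log (1 / η)) := by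
      rw [one_div_div]
    rw [e] at hcon
    obtain ⟨k, hk1, hk2⟩ := level rfl hcpos (by positivity) hs hsN hD hcon
    have hkD : (k + 2) * D ≤ D0 := by exact_mod_cast hk2.trans hD0
    obtain ⟨L', hL'⟩ := sol_comp hL F hF G d s η hR hkD
    obtain ⟨S, hS, hlt⟩ := exact_all G d s k η hG hd hs hsN hη hη1 (by
      refine le_trans ?_ hk1
      refine mul_le_mul_of_nonneg_right (by norm_num) ?_
      positivity) L' hL'
    linarith [hno S hS]
  · intro ε φ hε hεφ hφ1 hR hno
    by_contra hcon
    push Not at hcon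
    have hφ : 0 < φ := by linarith
    have hφ2 : 0 < 1 - φ ^ 2 := by nlinarith
    have hlog : 0 < Real.log (1 / (1 - φ ^ 2)) :=
      Real.log_pos (by rw [lt_div_iff₀ hφ2]; nlinarith)
    have e : Real.log (1 / (1 - φ ^ 2)) / (2 ^ 12 * ε) =
        1 / (2 ^ 12 * ε / Real.log (1 / (1 - φ ^ 2))) := by
      rw [one_div_div]
    rw [e] at hcon
    obtain ⟨k, hk1, hk2⟩ := level rfl hcpos (by positivity) hs hsN hD hcon
    have hkD : (k + 2) * D ≤ D0 := by exact_mod_cast hk2.trans hD0
    obtain ⟨L', hL'⟩ := sol_comp hL F hF G d s ε hR hkD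
    refine trade G d s k ε φ 1 hG hd hs hε hφ hφ1 (by norm_num) le_rfl (by linarith) hεφ
      (fun S hS hSc => hno S hS ?_) ?_ L' hL'
    · have : (S.card : ℝ) ≤ ((2 * s : ℕ) : ℝ) := by push_cast; linarith
      exact_mod_cast this
    · rw [one_mul, div_one]
      exact hk1

end Pool.Agent.Results.MP_8d8c46_lc.LocalReductions
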