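import Mathlib
import Pool.Agent.Results.MP_8d8c46_lc.CayleyTest

set_option autoImplicit false
set_option linter.unusedSectionVars false

/-!
# Small-set expansion in Cayley graphs over `F_q^n`: the optimal sets are linear subspaces

Let `V` be a finite vector space over the field `F` with `q` elements, and let `μ ≥ 0` be a weight on
`V` which is invariant under the nonzero scalars (for instance the uniform weight on the connection
set of a Cayley graph, or the noise distribution of a noisy cube). For a nonempty set `A` let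
`wexp μ A = ∑_s μ(s) |{x ∈ A : x + s ∉ A}| / |A|` be its expansion and
`lsize F A = log_q (|V| / |A|)` the logarithm of its inverse density. For a linear subspace `W` these
numbers are `μ(V ∖ W)` and the codimension of `W`. We show that for every `λ ≥ 0` the minimum of
`wexp μ A - λ lsize F A` over all nonempty sets `A` is attained at a linear subspace (so the expansion
profile, as a function of the logarithm of the density, has the same lower convex hull as the profile
of the linear subspaces), and that the logarithmic isoperimetric constant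
`min_A wexp μ A / lsize F A` is equal to `min_W μ(V ∖ W) / codim W`.

The proof is the entropy argument of `Pool.Agent.H562R2.CayleyIso` (starting library).
-/

namespace Pool.Agent.Results.MP_8d8c46_lc.LogIsoperimetry

open Finset Module
open scoped Classical
open Pool.Agent.Results.MP_8d8c46_lc.CayleyTest

noncomputable section

/-- The expansion of `A` for the weight `μ` on the translations. -/
def wexp {V : Type} [AddCommGroup V] [Fintype V] (μ : V → ℝ) (A : Finset V) : ℝ :=
  (∑ s, μ s * ((A.filter fun x => x + s ∉ A).card : ℝ)) / A.card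

/-- The logarithm of the inverse density of `A`, to the base `|F|`. -/
def lsize (F : Type) {V : Type} [Fintype F] [Fintype V] (A : Finset V) : ℝ :=
  Real.logb (Fintype.card F) (Fintype.card V / A.card)

/-- The codimension of a subspace, as a real number. -/
def codim {F V : Type} [Field F] [AddCommGroup V] [Module F V] (W : Submodule F V) : ℝ :=
  (finrank F V : ℝ) - finrank F W

section

variable {F V : Type} [Field F] [Fintype F] [AddCommGroup V] [Module F V] [Fintype V]

lemma wexp_subspace (μ : V → ℝ) (W : Submodule F V) :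
    wexp μ (carrier W) = ∑ s ∈ univ.filter (fun s => s ∉ W), μ s := by
  have hc : (0 : ℝ) < (carrier W).card := by exact_mod_cast (carrier_nonempty W).card_pos
  have h1 : ∀ s, μ s * (((carrier W).filter fun x => x + s ∉ carrier W).card : ℝ)
      = if s ∉ W then μ s * (carrier W).card else 0 := by
    intro s
    have := out_subspace W s
    unfold H562R2.CayleyIso.outCount at this
    rw [this]
    by_cases h : s ∈ W <;> simp [h]
  unfold wexp
  simp_rw [h1]
  rw [← Finset.sum_filter, ← Finset.sum_mul, mul_div_assoc, div_self hc.ne', mul_one]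

lemma lsize_subspace (W : Submodule F V) : lsize F (carrier W) = codim W := by
  have hq := H562R2.CayleyIso.one_lt_q (F := F)
  have hq0 : (0 : ℝ) < Fintype.card F := by linarith
  unfold lsize codim
  rw [card_carrier, Module.card_eq_pow_finrank (K := F) (V := V)]
  push_cast
  rw [Real.logb_div (by positivity) (by positivity), Real.logb_pow, Real.logb_pow,
    Real.logb_self_eq_one hq]
  ring

lemma codim_nonneg (W : Submodule F V) : 0 ≤ codim W := by
  unfold codim
  have := Submodule.finrank_le W
  have h : (finrank F W : ℝ) ≤ finrank F V := by exact_mod_cast this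
  linarith

lemma codim_pos {W : Submodule F V} (h : W ≠ ⊤) : 0 < codim W := by
  unfold codim
  have := Submodule.finrank_lt h
  have h : (finrank F W : ℝ) < finrank F V := by exact_mod_cast this
  linarith

lemma lsize_nonneg (A : Finset V) (hA : A.Nonempty) : 0 ≤ lsize F A := by
  have hq := H562R2.CayleyIso.one_lt_q (F := F)
  have hA0 : (0 : ℝ) < A.card := by exact_mod_cast hA.card_pos
  unfold lsize
  refine Real.logb_nonneg hq ?_
  rw [le_div_iff₀ hA0, one_mul]
  exact_mod_cast Finset.card_le_univ A

lemma lsize_pos (A : Finset V) (hA : A.Nonempty) (hA' : A ≠ univ) : 0 < lsize F A := by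
  have hq := H562R2.CayleyIso.one_lt_q (F := F)
  have hA0 : (0 : ℝ) < A.card := by exact_mod_cast hA.card_pos
  unfold lsize
  refine Real.logb_pos hq ?_
  rw [lt_div_iff₀ hA0, one_mul]
  have : A.card < Fintype.card V := (Finset.card_lt_iff_ne_univ A).mpr hA'
  exact_mod_cast this

lemma wexp_nonneg (μ : V → ℝ) (hμ : ∀ s, 0 ≤ μ s) (A : Finset V) : 0 ≤ wexp μ A := by
  unfold wexp
  refine div_nonneg (Finset.sum_nonneg fun s _ => mul_nonneg (hμ s) (Nat.cast_nonneg _))
    (Nat.cast_nonneg _)

/-- Part 1 for weights. -/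
lemma part1 (μ : V → ℝ) (hμ : ∀ s, 0 ≤ μ s) (hinv : ∀ (c : F) (s : V), c ≠ 0 → μ (c • s) = μ s)
    (lam : ℝ) (hlam : 0 ≤ lam) :
    ∃ W : Submodule F V, ∀ A : Finset V, A.Nonempty →
      wexp μ (carrier W) - lam * codim W ≤ wexp μ A - lam * lsize F A := by
  obtain ⟨W, hW⟩ := H562R2.CayleyIso.main μ hμ hinv lam hlam
  refine ⟨W, fun A hA => ?_⟩
  have h := hW A hA
  unfold H562R2.CayleyIso.g at h
  rw [wexp_subspace]
  exact h

/-- Part 2 for weights. -/
lemma part2 (μ : V → ℝ) (hμ : ∀ s, 0 ≤ μ s) (hinv : ∀ (c : F) (s : V), c ≠ 0 → μ (c • s) = μ s)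
    (c : ℝ) :
    (∀ A : Finset V, A.Nonempty → c * lsize F A ≤ wexp μ A) ↔
      ∀ W : Submodule F V, c * codim W ≤ wexp μ (carrier W) := by
  constructor
  · intro h W
    have := h (carrier W) (carrier_nonempty W)
    rwa [lsize_subspace] at this
  · intro h A hA
    rcases lt_or_ge c 0 with hc | hc
    · exact (mul_nonpos_of_nonpos_of_nonneg hc.le (lsize_nonneg A hA)).trans (wexp_nonneg μ hμ A)
    · obtain ⟨W, hW⟩ := part1 μ hμ hinv c hc
      have h1 := hW A hA
      have h2 := h W
      linarith

/-- Part 3 for weights. -/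
lemma part3 (μ : V → ℝ) (hμ : ∀ s, 0 ≤ μ s) (hinv : ∀ (c : F) (s : V), c ≠ 0 → μ (c • s) = μ s)
    (hV : 0 < finrank F V) :
    ∃ W : Submodule F V, W ≠ ⊤ ∧ ∀ A : Finset V, A.Nonempty → A ≠ univ →
      wexp μ (carrier W) / codim W ≤ wexp μ A / lsize F A := by
  have hne : (Finset.univ.filter fun W : Submodule F V => W ≠ ⊤).Nonempty := by
    refine ⟨⊥, ?_⟩
    simp only [Finset.mem_filter, Finset.mem_univ, true_and]
    intro h
    have h1 : finrank F (⊥ : Submodule F V) = finrank F (⊤ : Submodule F V) := by rw [h]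
    rw [finrank_bot, finrank_top] at h1
    omega
  obtain ⟨W, hW, hmin⟩ := Finset.exists_min_image _ (fun W : Submodule F V =>
    wexp μ (carrier W) / codim W) hne
  simp only [Finset.mem_filter, Finset.mem_univ, true_and] at hW hmin
  refine ⟨W, hW, fun A hA hA' => ?_⟩
  rw [le_div_iff₀ (lsize_pos A hA hA')]
  refine (part2 μ hμ hinv (wexp μ (carrier W) / codim W)).mpr (fun U => ?_) A hA
  by_cases hU : U = ⊤
  · subst hU
    have : codim (⊤ : Submodule F V) = 0 := by unfold codim; rw [finrank_top]; ring
    rw [this, mul_zero]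
    exact wexp_nonneg μ hμ _
  · have := hmin U hU
    rwa [le_div_iff₀ (codim_pos hU)] at this

end

/-- **Result.** Let `F` be a finite field with `q` elements and `V ≠ 0` a finite vector space over
`F`. Let `μ ≥ 0` be a weight on `V` with `μ (c s) = μ s` for all nonzero scalars `c`.

(a) For every `λ ≥ 0` there is a linear subspace `W` such that
`μ(V ∖ W) - λ codim W ≤ wexp μ A - λ log_q (|V| / |A|)` for all nonempty sets `A`.

(b) For every real `c`, all nonempty sets `A` satisfy `c log_q (|V| / |A|) ≤ wexp μ A` if and only if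
all linear subspaces `W` satisfy `c codim W ≤ μ(V ∖ W)`.

(c) There is a proper linear subspace `W` with
`μ(V ∖ W) / codim W ≤ wexp μ A / log_q (|V| / |A|)` for all nonempty sets `A ≠ V`.

(d) In particular let `G = Cay(V, S)` with `S` nonempty, `0 ∉ S` and `S` closed under the nonzero
scalars. If `Φ_G(A) ≤ η` for a nonempty set `A` with `|A| = q^{-k} |V|`, `k ≥ 1` (a yes instance of
`SSE(η, q^{-k})`), then `|S ∖ W| / |S| = Φ_G(W) ≤ (η / k) codim W` for some proper linear subspace
`W`. -/
theorem result (F V : Type) [Field F] [Fintype F] [AddCommGroup V] [Module F V] [Fintype V]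
    (hV : 0 < finrank F V) :
    (∀ μ : V → ℝ, (∀ s, 0 ≤ μ s) → (∀ (c : F) (s : V), c ≠ 0 → μ (c • s) = μ s) →
      (∀ W : Submodule F V, wexp μ (carrier W) = ∑ s ∈ univ.filter (fun s => s ∉ W), μ s) ∧
      (∀ W : Submodule F V, lsize F (carrier W) = codim W) ∧
      (∀ lam : ℝ, 0 ≤ lam → ∃ W : Submodule F V, ∀ A : Finset V, A.Nonempty →
        wexp μ (carrier W) - lam * codim W ≤ wexp μ A - lam * lsize F A) ∧
      (∀ c : ℝ, (∀ A : Finset V, A.Nonempty → c * lsize F A ≤ wexp μ A) ↔
        ∀ W : Submodule F V, c * codim W ≤ wexp μ (carrier W)) ∧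
      (∃ W : Submodule F V, W ≠ ⊤ ∧ ∀ A : Finset V, A.Nonempty → A ≠ univ →
        wexp μ (carrier W) / codim W ≤ wexp μ A / lsize F A)) ∧
    (∀ (S : Finset V) (hS : ∀ s ∈ S, -s ∈ S) (h0 : (0 : V) ∉ S), S.Nonempty →
      (∀ (c : F) (s : V), c ≠ 0 → s ∈ S → c • s ∈ S) → ∀ (k : ℕ) (eta : ℝ), 1 ≤ k →
      SseYes (cay S hS h0) S.card eta (1 / (Fintype.card F : ℝ) ^ k) →
      ∃ W : Submodule F V, W ≠ ⊤ ∧
        expansion (cay S hS h0) S.card (carrier W) ≤ eta / k * codim W) := by
  refine ⟨fun μ hμ hinv => ⟨wexp_subspace μ, lsize_subspace, part1 μ hμ hinv, part2 μ hμ hinv,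
    part3 μ hμ hinv hV⟩, ?_⟩
  intro S hS h0 hne hinv k eta hk
  rintro ⟨A, hA, hAc, hle⟩
  have hq := H562R2.CayleyIso.one_lt_q (F := F)
  have hq0 : (0 : ℝ) < Fintype.card F := by linarith
  have hSc : (0 : ℝ) < S.card := by exact_mod_cast hne.card_pos
  let μ : V → ℝ := fun s => if s ∈ S then (1 : ℝ) / S.card else 0
  have hμ : ∀ s, 0 ≤ μ s := by
    intro s; simp only [μ]; split_ifs <;> positivity
  have hmem : ∀ (c : F) (s : V), c ≠ 0 → (c • s ∈ S ↔ s ∈ S) := by
    intro c s hc
    constructor
    · intro h
      have := hinv c⁻¹ _ (inv_ne_zero hc) h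
      rwa [smul_smul, inv_mul_cancel₀ hc, one_smul] at this
    · exact hinv c s hc
  have hμinv : ∀ (c : F) (s : V), c ≠ 0 → μ (c • s) = μ s := by
    intro c s hc
    simp only [μ, hmem c s hc]
  have hexp : ∀ A : Finset V, expansion (cay S hS h0) S.card A = wexp μ A := by
    intro A
    unfold expansion wexp
    rw [cut_cay, ← div_div, Finset.sum_div]
    congr 1
    refine Finset.sum_congr rfl fun s _ => ?_
    simp only [μ, H562R2.CayleyIso.outCount]
    by_cases h : s ∈ S <;> simp [h]
    ring
  obtain ⟨W, hW, hmin⟩ := part3 μ hμ hμinv hV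
  have hk0 : (0 : ℝ) < k := by exact_mod_cast hk
  have hVc : (0 : ℝ) < Fintype.card V := by exact_mod_cast Fintype.card_pos
  have hls : lsize F A = k := by
    unfold lsize
    rw [hAc]
    have : (Fintype.card V : ℝ) / (1 / (Fintype.card F : ℝ) ^ k * Fintype.card V)
        = (Fintype.card F : ℝ) ^ k := by field_simp
    rw [this, Real.logb_pow, Real.logb_self_eq_one hq, mul_one]
  have hAu : A ≠ univ := by
    rintro rfl
    have h1 : lsize F (univ : Finset V) = 0 := by
      unfold lsize
      rw [Finset.card_univ, div_self hVc.ne', Real.logb_one]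
    rw [h1] at hls
    linarith
  refine ⟨W, hW, ?_⟩
  rw [hexp] at hle ⊢
  have h := hmin A hA hAu
  rw [hls, div_le_iff₀ (codim_pos hW)] at h
  refine h.trans ?_
  exact mul_le_mul_of_nonneg_right (div_le_div_of_nonneg_right hle hk0.le) (codim_nonneg W)

end

end Pool.Agent.Results.MP_8d8c46_lc.LogIsoperimetry
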